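import Pool.Agent.Helper26.HW.Stmts

/-! Row PCN. -/

set_option autoImplicit false

namespace Pool.Agent.Helper17.HW

open MeasureTheory Filter Pool.Agent.Helper95 Pool.Agent.Helper95.PW Pool.Agent.Helper95.LN
  Pool.Agent.Helper95.CF
open Pool.Agent.Helper95.HV

theorem pcn_nr_comm (a b : R3) : nr (a - b) = nr (b - a) := by
  unfold nr
  congr 1
  simp only [Pi.sub_apply]
  ring

theorem PCN (h : ST_KK) : Pool.Agent.Helper26.HW.ST_PCN := by
  intro d n M X x hd hx
  obtain ⟨f, hf⟩ : ∃ f : Fin n → Fin n → ℝ,
      f = fun k l => if nr (x k - x l) < d / 32 then (1 : ℝ) else 0 := ⟨_, rfl⟩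
  have hfs : ∀ k l, f l k = f k l := fun k l => by
    rw [hf]
    show (if nr (x l - x k) < d / 32 then (1 : ℝ) else 0) =
      if nr (x k - x l) < d / 32 then (1 : ℝ) else 0
    rw [pcn_nr_comm]
  have e0 : ∀ k l, f k l = (if k = l then f k l else 0) + (if k < l then f k l else 0) +
      (if l < k then f l k else 0) := by
    intro k l
    rcases lt_trichotomy k l with h1 | h1 | h1
    · rw [if_neg h1.ne, if_pos h1, if_neg h1.not_gt]; ring
    · subst h1; simp
    · rw [if_neg h1.ne', if_neg h1.not_gt, if_pos h1, hfs]; ring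
  have e1 : ∑ k, ∑ l, f k l = (∑ k, ∑ l, if k = l then f k l else 0) +
      (∑ k, ∑ l, if k < l then f k l else 0) + ∑ k, ∑ l, if k < l then f k l else 0 := by
    have e2 : ∑ k, ∑ l, (if k < l then f k l else 0) = ∑ k, ∑ l, if l < k then f l k else 0 :=
      Finset.sum_comm
    calc ∑ k, ∑ l, f k l = ∑ k, ∑ l, ((if k = l then f k l else 0) +
          (if k < l then f k l else 0) + (if l < k then f l k else 0)) :=
          Finset.sum_congr rfl fun k _ => Finset.sum_congr rfl fun l _ => e0 k l
      _ = (∑ k, ∑ l, if k = l then f k l else 0) +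
      (∑ k, ∑ l, if k < l then f k l else 0) + ∑ k, ∑ l, if l < k then f l k else 0 := by
          simp only [Finset.sum_add_distrib]
      _ = _ := by rw [← e2]
  have e3 : (∑ k, ∑ l, if k = l then f k l else 0) ≤ n := by
    calc (∑ k, ∑ l, if k = l then f k l else 0) = ∑ k, f k k := by
          refine Finset.sum_congr rfl fun k _ => ?_
          rw [Finset.sum_ite_eq]
          simp
      _ ≤ ∑ _k : Fin n, (1 : ℝ) := by
          refine Finset.sum_le_sum fun k _ => ?_
          rw [hf]
          show (if nr (x k - x k) < d / 32 then (1 : ℝ) else 0) ≤ 1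
          split_ifs <;> norm_num
      _ = n := by simp
  have e4 : (∑ k, ∑ l, if k < l then f k l else 0) + (∑ k, ∑ l, if k < l then f k l else 0) ≤
      d / 8 * Rem (d / 8) x := by
    unfold Rem
    rw [← Finset.sum_add_distrib, Finset.mul_sum]
    refine Finset.sum_le_sum fun k _ => ?_
    rw [← Finset.sum_add_distrib, Finset.mul_sum]
    refine Finset.sum_le_sum fun l _ => ?_
    by_cases hkl : k < l
    · rw [if_pos hkl, if_pos hkl]
      have hne := hx.1 k l hkl.ne
      have hnn : 0 ≤ nr (x k - x l) := Real.sqrt_nonneg _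
      have hpos : 0 < nr (x k - x l) := lt_of_le_of_ne hnn (Ne.symm hne)
      obtain ⟨_, k2, _, k4⟩ := h (d / 8) (x k - x l) (by positivity)
      have k2' := k2 hne
      rw [hf]
      show (if nr (x k - x l) < d / 32 then (1 : ℝ) else 0) +
        (if nr (x k - x l) < d / 32 then (1 : ℝ) else 0) ≤ _
      split_ifs with hc
      · have g1 : 32 / d ≤ 1 / nr (x k - x l) := by
          rw [div_le_div_iff₀ hd hpos]
          linarith
        have g2 : 2 / (d / 8) = 16 / d := by
          field_simp
          norm_num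
        rw [g2] at k4
        have g3 : 16 / d ≤ 1 / nr (x k - x l) - Kf (d / 8) (x k - x l) := by
          have : 32 / d = 16 / d + 16 / d := by ring
          linarith
        have g4 := mul_le_mul_of_nonneg_left g3 (by positivity : 0 ≤ d / 8)
        have g5 : d / 8 * (16 / d) = 1 + 1 := by
          field_simp
          norm_num
        rw [g5] at g4
        exact g4
      · have g1 : 0 ≤ 1 / nr (x k - x l) - Kf (d / 8) (x k - x l) := by linarith
        have g2 : 0 ≤ d / 8 * (1 / nr (x k - x l) - Kf (d / 8) (x k - x l)) := by positivity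
        linarith
    · rw [if_neg hkl, if_neg hkl]
      simp
  have e5 : ∑ k, ∑ l, (if nr (x k - x l) < d / 32 then (1 : ℝ) else 0) = ∑ k, ∑ l, f k l := by
    rw [hf]
  rw [e5, e1]
  linarith

end Pool.Agent.Helper17.HW
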